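import Pool.Agent.Q322.OS.Asy

set_option autoImplicit false

/-!
# MP_e38963_al: amalgams of operator norm stable groups over infinite central subgroups

There are countable operator norm stable groups with a common infinite central subgroup whose
amalgamated free product is not operator norm stable.
-/

namespace Pool.Agent.Results.MP_e38963_al.AmalgamNotStable

open Pool.Agent.Q322.OS

/-- It is false that, for all countable groups `G₁`, `G₂` and every infinite group `H` embedded in
the centres of `G₁` and `G₂`, operator norm stability of `G₁` and `G₂` implies operator norm
stability of the amalgamated free product. -/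
theorem result :
    ¬ ∀ (G₁ G₂ H : Type) [Group G₁] [Group G₂] [Group H] [Countable G₁] [Countable G₂]
      [Infinite H] (i₁ : H →* G₁) (i₂ : H →* G₂),
      Function.Injective i₁ → Function.Injective i₂ →
      (∀ h, i₁ h ∈ Subgroup.center G₁) → (∀ h, i₂ h ∈ Subgroup.center G₂) →
      OperatorNormStable G₁ → OperatorNormStable G₂ →
      OperatorNormStable (Amalgam i₁ i₂) := by
  intro h
  have : Infinite H0 := by
    have : Infinite R0 := Infinite.of_injective (fun j : ℕ => e j) (by
      intro i j hij
      have := congrArg (fun f : R0 => f i) hij
      simp only [e, Finsupp.single_eq_same, Finsupp.single_apply] at this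
      by_contra hne
      rw [if_neg (Ne.symm hne)] at this
      exact one_ne_zero this)
    exact inferInstanceAs (Infinite (ZMod 2 × R0))
  exact not_stable (h (HG R0) (HG R0) H0 j1 j2 j1_inj j2_inj (fun _ => central _ _)
    (fun _ => central _ _) stable_HG stable_HG)

end Pool.Agent.Results.MP_e38963_al.AmalgamNotStable
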